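import Pool.Agent.Helper77.TRI.Pl
import Pool.Agent.Helper67.TRI.GamLe
import Pool.Agent.Helper61.TRI.AlgOfVal
import Pool.Agent.Helper23.TRI.SumS
import Pool.Agent.Helper64.TRI.B2

/-!
# TRI, B9: the theorem on curves: at most `2 r` places over the divisor, and relations

For a place `s` over the divisor let `x s` be the sum of the `t α` with `ω α = t α * ω s`, times `γ s / f s`, and `T i = ∑ f s * M s i`.
Then `x s * T i ≤ h` (B7) and `∑ x s * (f s * M s i) = h`, so `x s * T i = h` if `M s i > 0`; `B6` bounds the number of these places.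
-/

set_option autoImplicit false

namespace Pool.Agent.TRI

open Module Pool.Agent.SQ

universe u

section

variable {k E : Type*} [Field k] [Field E] [Algebra k E]

private theorem prp_symm {ω ω' : E → ℝ} (h : Prp ω ω') : Prp ω' ω := by
  obtain ⟨c, hc, h⟩ := h
  refine ⟨c⁻¹, inv_pos.2 hc, fun x hx => ?_⟩
  rw [h x hx, ← mul_assoc, inv_mul_cancel₀ hc.ne', one_mul]

private theorem prp_trans {ω ω' ω'' : E → ℝ} (h : Prp ω ω') (h' : Prp ω' ω'') : Prp ω ω'' := by
  obtain ⟨c, hc, h⟩ := h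
  obtain ⟨d, hd, h'⟩ := h'
  exact ⟨d * c, mul_pos hd hc, fun x hx => by rw [h' x hx, h x hx, mul_assoc]⟩

private theorem prp_refl (ω : E → ℝ) : Prp ω ω := ⟨1, one_pos, fun x _ => by rw [one_mul]⟩

/-- the equivalence relation on the nontrivial valuations -/
private def rel {A : Type*} (ω : A → E → ℝ) : Setoid {α // ¬ Triv (ω α)} where
  r a b := Prp (ω a) (ω b)
  iseqv := ⟨fun _ => prp_refl _, fun h => prp_symm h, fun h h' => prp_trans h h'⟩

/-- representatives of the classes of the nontrivial valuations -/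
private theorem classes {A : Type*} [Fintype A] (ω : A → E → ℝ) :
    ∃ (R : Finset A) (ρ : A → A) (t : A → ℝ), (∀ s ∈ R, ¬ Triv (ω s)) ∧
      (∀ s ∈ R, ∀ s' ∈ R, s ≠ s' → ¬ Prp (ω s) (ω s')) ∧
      ∀ α, ¬ Triv (ω α) → ρ α ∈ R ∧ 0 < t α ∧ ∀ x, x ≠ 0 → ω α x = t α * ω (ρ α) x := by
  classical
  have key : ∀ α, ∃ (β : A) (t : ℝ), ∀ h : ¬ Triv (ω α), β = ((Quotient.out (Quotient.mk (rel ω) ⟨α, h⟩) : {α // ¬ Triv (ω α)}) : A) ∧
      0 < t ∧ ∀ x, x ≠ 0 → ω α x = t * ω β x := by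
    intro α
    by_cases h : Triv (ω α)
    · exact ⟨α, 1, fun h' => absurd h h'⟩
    · have h1 : Prp (ω (Quotient.out (Quotient.mk (rel ω) ⟨α, h⟩) : {α // ¬ Triv (ω α)}).1) (ω α) :=
        Quotient.exact (s := rel ω) (Quotient.out_eq (Quotient.mk (rel ω) ⟨α, h⟩))
      obtain ⟨t, ht, h2⟩ := h1
      exact ⟨_, t, fun _ => ⟨rfl, ht, h2⟩⟩
  choose ρ t hρ using key
  refine ⟨(Finset.univ.filter fun α => ¬ Triv (ω α)).image ρ, ρ, t, fun s hs => ?_, fun s hs s' hs' hne hp => ?_, fun α hα =>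
    ⟨Finset.mem_image_of_mem _ (Finset.mem_filter.2 ⟨Finset.mem_univ _, hα⟩), (hρ α hα).2.1, (hρ α hα).2.2⟩⟩
  · obtain ⟨α, hα, rfl⟩ := Finset.mem_image.1 hs
    have hα := (Finset.mem_filter.1 hα).2
    rw [(hρ α hα).1]
    exact (Quotient.out (Quotient.mk (rel ω) ⟨α, hα⟩) : {α // ¬ Triv (ω α)}).2
  · obtain ⟨α, hα, rfl⟩ := Finset.mem_image.1 hs
    obtain ⟨β, hβ, rfl⟩ := Finset.mem_image.1 hs'
    have hα := (Finset.mem_filter.1 hα).2
    have hβ := (Finset.mem_filter.1 hβ).2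
    have h1 : Prp (ω (ρ α)) (ω α) := ⟨t α, (hρ α hα).2.1, (hρ α hα).2.2⟩
    have h2 : Prp (ω (ρ β)) (ω β) := ⟨t β, (hρ β hβ).2.1, (hρ β hβ).2.2⟩
    have h3 : Prp (ω α) (ω β) := prp_trans (prp_trans (prp_symm h1) hp) h2
    apply hne
    rw [(hρ α hα).1, (hρ β hβ).1]
    have h4 : Quotient.mk (rel ω) ⟨α, hα⟩ = Quotient.mk (rel ω) ⟨β, hβ⟩ := Quotient.sound (s := rel ω) h3
    rw [h4]

private theorem dval_scale {ω ω' : E → ℝ} {γ : ℝ} {f : ℕ} (h : DVal k ω γ f) (h' : RV k ω') {t : ℝ} (ht : 0 < t)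
    (hω : ∀ x, x ≠ 0 → ω' x = t * ω x) : DVal k ω' (t * γ) f where
  rv := h'
  γ0 := mul_pos ht h.γ0
  f0 := h.f0
  dvd := fun x hx => by
    obtain ⟨n, hn⟩ := h.dvd x hx
    exact ⟨n, by rw [hω x hx, hn]; ring⟩
  ex := by
    obtain ⟨x, hx, h1⟩ := h.ex
    exact ⟨x, hx, by rw [hω x hx, h1]⟩
  res := by
    obtain ⟨u, hu⟩ := h.res
    refine ⟨u, fun c hc => ⟨(hu c hc).1, ?_⟩⟩
    rw [hω _ (hu c hc).1, (hu c hc).2, mul_zero]
  max := fun f' u hu => h.max f' u fun c hc => ⟨(hu c hc).1, by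
    have h1 := (hu c hc).2
    rw [hω _ (hu c hc).1] at h1
    exact (mul_eq_zero.1 h1).resolve_left ht.ne'⟩

private theorem rv_one {ω : E → ℝ} (h : RV k ω) : ω 1 = 0 := by
  have := h.alg 1 one_ne_zero
  rwa [map_one] at this

private theorem rv_inv {ω : E → ℝ} (h : RV k ω) {x : E} (hx : x ≠ 0) : ω x⁻¹ = - ω x := by
  have := h.mul x x⁻¹ hx (inv_ne_zero hx)
  rw [mul_inv_cancel₀ hx, rv_one h] at this
  linarith

private theorem rv_div {ω : E → ℝ} (h : RV k ω) {x y : E} (hx : x ≠ 0) (hy : y ≠ 0) : ω (x / y) = ω x - ω y := by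
  rw [div_eq_mul_inv, h.mul _ _ hx (inv_ne_zero hy), rv_inv h hy]; ring

private theorem rv_pow {ω : E → ℝ} (h : RV k ω) {x : E} (hx : x ≠ 0) (n : ℕ) : ω (x ^ n) = n * ω x := by
  induction n with
  | zero => simp [rv_one h]
  | succ n ih => rw [pow_succ, h.mul _ _ (pow_ne_zero _ hx) hx, ih]; push_cast; ring

private theorem rv_zpow {ω : E → ℝ} (h : RV k ω) {x : E} (hx : x ≠ 0) (n : ℤ) : ω (x ^ n) = n * ω x := by
  cases n with
  | ofNat n => simpa using rv_pow h hx n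
  | negSucc n =>
    rw [zpow_negSucc, rv_inv h (pow_ne_zero _ hx), rv_pow h hx]
    push_cast
    ring

private theorem rv_prod {ω : E → ℝ} (h : RV k ω) {q : ℕ} (L : Fin q → E) (hL : ∀ i, L i ≠ 0) (a : Fin q → ℤ) :
    ω (∏ i, L i ^ a i) = ∑ i, a i * ω (L i) := by
  classical
  have key : ∀ s : Finset (Fin q), ω (∏ i ∈ s, L i ^ a i) = ∑ i ∈ s, a i * ω (L i) := by
    intro s
    induction s using Finset.induction_on with
    | empty => simp [rv_one h]
    | insert j s hj ih =>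
      rw [Finset.prod_insert hj, Finset.sum_insert hj,
        h.mul _ _ (zpow_ne_zero _ (hL j)) (Finset.prod_ne_zero_iff.2 fun i _ => zpow_ne_zero _ (hL i)), ih, rv_zpow h (hL j)]
  exact key _

/-- the elements of value greater than `c` -/
private def levp {ω : E → ℝ} (h : RV k ω) (c : ℝ) : Submodule k E where
  carrier := {x | x = 0 ∨ c < ω x}
  zero_mem' := Or.inl rfl
  add_mem' := by
    intro x y hx hy
    rcases hx with rfl | hx
    · simpa using hy
    rcases hy with rfl | hy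
    · rw [add_zero]; exact Or.inr hx
    by_cases hxy : x + y = 0
    · exact Or.inl hxy
    by_cases hx0 : x = 0
    · subst hx0; rw [zero_add]; exact Or.inr hy
    by_cases hy0 : y = 0
    · subst hy0; rw [add_zero]; exact Or.inr hx
    exact Or.inr ((lt_min hx hy).trans_le (h.add x y hx0 hy0 hxy))
  smul_mem' := by
    intro c x hx
    rcases hx with rfl | hx
    · simp
    by_cases hc : c = 0
    · left; simp [hc]
    by_cases hx0 : x = 0
    · left; simp [hx0]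
    right
    rw [h.smul c x hc hx0]
    exact hx

/-- an element of `V` of minimal value everywhere -/
private theorem exists_min [CharZero k] {A : Type*} [Fintype A] [Nonempty A] {V : Submodule k E} {ω : A → E → ℝ} {c : A → ℝ} {r : ℕ}
    {h : ℝ} (hD : Dat V ω c r h) : ∃ l ∈ V, l ≠ 0 ∧ ∀ α, ω α l + c α = 0 := by
  classical
  have hinf : Infinite k := CharZero.infinite k
  obtain ⟨p, hp⟩ : ∃ p : A → Submodule k V, ∀ α, ∀ x : V, x ∈ p α ↔ ((x : E) = 0 ∨ - c α < ω α x) :=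
    ⟨fun α => (levp (hD.rv α) (- c α)).comap V.subtype, fun α x => by rw [Submodule.mem_comap]; rfl⟩
  have hne : ⋃ i, (p i : Set V) ≠ Set.univ := by
    intro hu
    obtain ⟨α, hα⟩ := Subspace.exists_eq_top_of_iUnion_eq_univ hu
    obtain ⟨x, hx, hx0, h1⟩ := hD.eq α
    have h2 : (⟨x, hx⟩ : V) ∈ p α := by rw [hα]; exact Submodule.mem_top
    rcases (hp α _).1 h2 with h3 | h3
    · exact hx0 h3
    · have h4 : - c α < ω α x := h3
      linarith
  obtain ⟨x, hx⟩ := (Set.ne_univ_iff_exists_notMem _).1 hne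
  have h1 : ∀ α, ¬ ((x : E) = 0 ∨ - c α < ω α x) := fun α h2 => hx (Set.mem_iUnion.2 ⟨α, (hp α x).2 h2⟩)
  obtain ⟨α0⟩ := ‹Nonempty A›
  have hx0 : (x : E) ≠ 0 := fun h2 => h1 α0 (Or.inl h2)
  refine ⟨x, x.2, hx0, fun α => le_antisymm ?_ (hD.ge α x x.2 hx0)⟩
  have h3 := h1 α
  push Not at h3
  linarith [h3.2]

/-- a linear lower bound -/
private theorem slope {V : Submodule k E} {T δ : ℕ} (h : ∀ n : ℕ, T * (n + 1) ≤ finrank k ↥(V ^ (δ + n))) : (T : ℝ) ∈ Gr V := by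
  refine ⟨(T * δ : ℕ), fun m => ?_⟩
  have h1 : T * m ≤ finrank k ↥(V ^ m) + T * δ := by
    rcases le_total m δ with h2 | h2
    · exact le_add_left (Nat.mul_le_mul_left _ h2)
    · obtain ⟨n, rfl⟩ := Nat.exists_eq_add_of_le h2
      have h3 := h n
      nlinarith [h3, Nat.zero_le T]
  exact_mod_cast h1

private theorem slope_le {V : Submodule k E} {T δ d C : ℕ} (h : ∀ n : ℕ, T * (n + 1) ≤ finrank k ↥(V ^ (δ + n)))
    (h' : ∀ m, finrank k ↥(V ^ m) ≤ d * m + C) : T ≤ d := by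
  by_contra hlt
  push Not at hlt
  have h1 := (h (d * δ + C)).trans (h' _)
  have h2 : (d + 1) * (d * δ + C + 1) ≤ T * (d * δ + C + 1) := Nat.mul_le_mul_right _ hlt
  nlinarith [h1, h2]

theorem curve_alg [CharZero k] {A : Type*} [Fintype A] {V : Submodule k E} [FiniteDimensional k V] (hC : Crv V)
    {ω : A → E → ℝ} {c : A → ℝ} {r : ℕ} {h : ℝ} (hD : Dat V ω c r h) {q : ℕ} (L : Fin q → E) (hL : ∀ i, L i ∈ V)
    (hL0 : ∀ i, L i ≠ 0) (I2 : ∀ i, h ≤ ∑ α, (ω α (L i) + c α)) :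
    ∃ (p : ℕ) (M : Fin p → Fin q → ℕ), p ≤ 2 * r ∧
      (∀ d : ℕ, (∃ C : ℕ, ∀ m, finrank k ↥(V ^ m) ≤ d * m + C) → ∀ s i, M s i ≤ d) ∧
      ∀ a : Fin q → ℤ, (∀ s, ∑ i, a i * M s i = 0) → ∑ i, a i = 0 ∧ IsAlgebraic k (∏ i, L i ^ a i) := by
  classical
  rcases Nat.eq_zero_or_pos q with hq | hq
  · subst hq
    refine ⟨0, fun _ _ => 0, Nat.zero_le _, fun d _ s => s.elim0, fun a _ => ⟨by simp, ?_⟩⟩
    rw [Finset.univ_eq_empty, Finset.prod_empty]
    exact isAlgebraic_one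
  obtain ⟨i1⟩ : Nonempty (Fin q) := ⟨⟨0, hq⟩⟩
  have hAne : Nonempty A := by
    by_contra hA
    rw [not_nonempty_iff] at hA
    have h1 := I2 i1
    rw [Finset.univ_eq_empty, Finset.sum_empty] at h1
    exact absurd hD.h0 (not_lt.2 h1)
  obtain ⟨l0, hl0, hl00, hl⟩ := exists_min hD
  obtain ⟨R, ρ, t, hR, hRp, hρ⟩ := classes ω
  have hx0 : ∀ i, L i / l0 ≠ 0 := fun i => div_ne_zero (hL0 i) hl00
  have hval : ∀ α i, ω α (L i) + c α = ω α (L i / l0) := fun α i => by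
    rw [rv_div (hD.rv α) (hL0 i) hl00]; linarith [hl α]
  have hge : ∀ α i, 0 ≤ ω α (L i / l0) := fun α i => by
    rw [← hval]; exact hD.ge α _ (hL i) (hL0 i)
  have heq : ∀ i, ∑ α, ω α (L i / l0) = h := by
    intro i
    apply le_antisymm
    · have h1 := hD.I1 1 (L i) (by rw [pow_one]; exact hL i) (hL0 i)
      simp only [Nat.cast_one, one_mul] at h1
      simpa only [hval] using h1
    · have h1 := I2 i
      simpa only [hval] using h1
  -- the discrete valuations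
  have hdv : ∀ s, ∃ (γ : ℝ) (f : ℕ), s ∈ R → DVal k (ω s) γ f := by
    intro s
    by_cases hs : s ∈ R
    · obtain ⟨γ, f, h1⟩ := dval hC (hD.rv s) (hR s hs)
      exact ⟨γ, f, fun _ => h1⟩
    · exact ⟨0, 0, fun h1 => absurd h1 hs⟩
  choose γ f hdv using hdv
  have hM : ∀ s i, ∃ m : ℕ, s ∈ R → ω s (L i / l0) = m * γ s := by
    intro s i
    by_cases hs : s ∈ R
    · obtain ⟨n, hn⟩ := (hdv s hs).dvd _ (hx0 i)
      have h1 := hge s i
      rw [hn] at h1
      have h2 : (0 : ℝ) ≤ n := nonneg_of_mul_nonneg_left h1 (hdv s hs).γ0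
      have h3 : 0 ≤ n := by exact_mod_cast h2
      obtain ⟨m, rfl⟩ := Int.eq_ofNat_of_zero_le h3
      exact ⟨m, fun _ => by rw [hn]; norm_cast⟩
    · exact ⟨0, fun h1 => absurd h1 hs⟩
  choose M hM using hM
  -- the degrees
  obtain ⟨T, hT⟩ : ∃ T : Fin q → ℕ, ∀ i, T i = ∑ s ∈ R, f s * M s i := ⟨_, fun _ => rfl⟩
  have hpl : ∀ i, ∃ δ : ℕ, ∀ n : ℕ, T i * (n + 1) ≤ finrank k ↥(V ^ (δ + n)) := by
    intro i
    obtain ⟨δ, h1⟩ := pl (k := k) (ι := {s // s ∈ R}) (fun s => ω s.1) (fun s => γ s.1) (fun s => f s.1) (fun s => hdv s.1 s.2)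
      (fun s s' hss => hRp s.1 s.2 s'.1 s'.2 fun h2 => hss (Subtype.ext h2)) hC (fun s => M s.1 i) (L i) l0 (hL i) hl0 (hL0 i) hl00
      (fun s => hM s.1 i s.2)
    refine ⟨δ, fun n => ?_⟩
    have h2 : T i = ∑ s : {s // s ∈ R}, f s.1 * M s.1 i := by rw [hT, Finset.sum_coe_sort R fun s => f s * M s i]
    rw [h2]; exact h1 n
  have hGr : ∀ i, (T i : ℝ) ∈ Gr V := fun i => by
    obtain ⟨δ, h1⟩ := hpl i
    exact slope h1
  -- the slopes
  obtain ⟨x, hx⟩ : ∃ x : A → ℝ, ∀ s, x s = (∑ α ∈ Finset.univ.filter (fun α => ¬ Triv (ω α) ∧ ρ α = s), t α) * γ s / f s :=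
    ⟨_, fun _ => rfl⟩
  have hf0 : ∀ s ∈ R, (0 : ℝ) < f s := fun s hs => by exact_mod_cast (hdv s hs).f0
  have hxnn : ∀ s ∈ R, 0 ≤ x s := by
    intro s hs
    rw [hx]
    refine div_nonneg (mul_nonneg (Finset.sum_nonneg fun α hα => ?_) (hdv s hs).γ0.le) (Nat.cast_nonneg _)
    exact (hρ α (Finset.mem_filter.1 hα).2.1).2.1.le
  have hxT : ∀ s ∈ R, ∀ i, x s * T i ≤ h := by
    intro s hs i
    rw [hx]
    refine gam_le hD s (hdv s hs) _ t (fun α hα => (hρ α (Finset.mem_filter.1 hα).2.1).2.1) (fun α hα y hy => ?_) (hGr i)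
    have h1 := (Finset.mem_filter.1 hα).2
    rw [(hρ α h1.1).2.2 y hy, h1.2]
  have hfib : ∀ g : A → ℝ, (∀ α, Triv (ω α) → g α = 0) →
      ∑ α, g α = ∑ s ∈ R, ∑ α ∈ Finset.univ.filter (fun α => ¬ Triv (ω α) ∧ ρ α = s), g α := by
    intro g hg
    have h1 : ∑ α, g α = ∑ α ∈ Finset.univ.filter (fun α => ¬ Triv (ω α)), g α := by
      rw [Finset.sum_filter]
      refine Finset.sum_congr rfl fun α _ => ?_
      by_cases h2 : Triv (ω α)
      · rw [if_neg (not_not.2 h2), hg α h2]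
      · rw [if_pos h2]
    rw [h1, ← Finset.sum_fiberwise_of_maps_to (s := Finset.univ.filter (fun α => ¬ Triv (ω α))) (t := R) (g := ρ)
      fun α hα => (hρ α (Finset.mem_filter.1 hα).2).1]
    refine Finset.sum_congr rfl fun s _ => ?_
    rw [Finset.filter_filter]
  have hsum : ∀ i, ∑ s ∈ R, x s * (f s * M s i : ℕ) = h := by
    intro i
    rw [← heq i, hfib (fun α => ω α (L i / l0)) fun α hα => hα _ (hx0 i)]
    refine Finset.sum_congr rfl fun s hs => ?_
    have h1 : ∀ α ∈ Finset.univ.filter (fun α => ¬ Triv (ω α) ∧ ρ α = s), ω α (L i / l0) = t α * (M s i * γ s) := by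
      intro α hα
      have h2 := (Finset.mem_filter.1 hα).2
      rw [(hρ α h2.1).2.2 _ (hx0 i), h2.2, hM s i hs]
    rw [Finset.sum_congr rfl h1, ← Finset.sum_mul, hx]
    have h3 := hf0 s hs
    push_cast
    field_simp
  -- the extremal places
  have hext : ∀ s ∈ R, ∀ i, 0 < M s i → x s * T i = h := by
    intro s hs i hi
    have h1 : ∑ s ∈ R, (h - x s * T i) * (f s * M s i : ℕ) = 0 := by
      have h2 : ∑ s ∈ R, (h - x s * T i) * (f s * M s i : ℕ) =
          h * (∑ s ∈ R, (f s * M s i : ℕ) : ℝ) - T i * ∑ s ∈ R, x s * (f s * M s i : ℕ) := by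
        rw [Finset.mul_sum, Finset.mul_sum, ← Finset.sum_sub_distrib]
        exact Finset.sum_congr rfl fun s _ => by ring
      rw [h2, hsum i, ← Nat.cast_sum, ← hT i]
      ring
    have h3 := (Finset.sum_eq_zero_iff_of_nonneg fun s hs => mul_nonneg (sub_nonneg.2 (hxT s hs i)) (Nat.cast_nonneg _)).1 h1 s hs
    have h4 : ((f s * M s i : ℕ) : ℝ) ≠ 0 := by
      exact_mod_cast (Nat.mul_pos (hdv s hs).f0 hi).ne'
    linarith [(mul_eq_zero.1 h3).resolve_right h4]
  obtain ⟨P, hP⟩ : ∃ P : Finset A, P = R.filter fun s => ∃ i, 0 < M s i := ⟨_, rfl⟩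
  have hPR : ∀ s ∈ P, s ∈ R := fun s hs => by rw [hP] at hs; exact (Finset.mem_filter.1 hs).1
  have hPcard : P.card ≤ 2 * r := by
    obtain ⟨i0, -, hi0⟩ := Finset.exists_max_image Finset.univ T ⟨i1, Finset.mem_univ _⟩
    have h1 : ∀ s ∈ P, h ≤ x s * T i0 := by
      intro s hs
      rw [hP] at hs
      obtain ⟨hs, i, hi⟩ := Finset.mem_filter.1 hs
      rw [← hext s hs i hi]
      exact mul_le_mul_of_nonneg_left (by exact_mod_cast hi0 i (Finset.mem_univ _)) (hxnn s hs)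
    have h2 := sum_s hD (Finset.univ.filter fun α => ¬ Triv (ω α) ∧ ρ α ∈ P) (fun α => t α * γ (ρ α)) (fun α => f (ρ α))
      (fun α hα => by
        have h3 := (Finset.mem_filter.1 hα).2
        exact dval_scale (hdv _ (hPR _ h3.2)) (hD.rv α) (hρ α h3.1).2.1 (hρ α h3.1).2.2) (hGr i0)
    have h3 : ∑ α ∈ Finset.univ.filter (fun α => ¬ Triv (ω α) ∧ ρ α ∈ P), t α * γ (ρ α) / f (ρ α) = ∑ s ∈ P, x s := by
      rw [← Finset.sum_fiberwise_of_maps_to (s := Finset.univ.filter fun α => ¬ Triv (ω α) ∧ ρ α ∈ P) (t := P) (g := ρ)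
        fun α hα => (Finset.mem_filter.1 hα).2.2]
      refine Finset.sum_congr rfl fun s hs => ?_
      rw [hx, Finset.filter_filter]
      have h4 : (Finset.univ.filter fun α => (¬ Triv (ω α) ∧ ρ α ∈ P) ∧ ρ α = s) = Finset.univ.filter fun α => ¬ Triv (ω α) ∧ ρ α = s := by
        ext α
        simp only [Finset.mem_filter, Finset.mem_univ, true_and]
        constructor
        · rintro ⟨⟨h5, -⟩, h6⟩; exact ⟨h5, h6⟩
        · rintro ⟨h5, h6⟩; exact ⟨⟨h5, h6 ▸ hs⟩, h6⟩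
      rw [h4, Finset.sum_mul, Finset.sum_div]
      refine Finset.sum_congr rfl fun α hα => ?_
      rw [(Finset.mem_filter.1 hα).2.2]
    rw [h3] at h2
    have h4 : (P.card : ℝ) * h ≤ 2 * r * h := by
      refine le_trans ?_ h2
      rw [Finset.sum_mul, ← nsmul_eq_mul]
      exact Finset.card_nsmul_le_sum _ _ _ h1
    have h5 := le_of_mul_le_mul_right h4 hD.h0
    exact_mod_cast h5
  refine ⟨P.card, fun j i => M (P.equivFin.symm j).1 i, hPcard, ?_, ?_⟩
  · rintro d ⟨C, hd⟩ j i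
    have hs := hPR _ (P.equivFin.symm j).2
    obtain ⟨δ, h1⟩ := hpl i
    have h2 : T i ≤ d := slope_le h1 hd
    have h3 : f (P.equivFin.symm j).1 * M (P.equivFin.symm j).1 i ≤ T i := by
      rw [hT]
      exact Finset.single_le_sum (f := fun s => f s * M s i) (fun _ _ => Nat.zero_le _) hs
    exact (Nat.le_mul_of_pos_left _ (hdv _ hs).f0).trans (h3.trans h2)
  · intro a ha
    have haP : ∀ s ∈ R, ∑ i, a i * (M s i : ℤ) = 0 := by
      intro s hs
      by_cases h1 : s ∈ P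
      · have h2 := ha (P.equivFin ⟨s, h1⟩)
        simpa using h2
      · have h2 : ∀ i, M s i = 0 := by
          intro i
          by_contra h3
          exact h1 (by rw [hP]; exact Finset.mem_filter.2 ⟨hs, i, Nat.pos_of_ne_zero h3⟩)
        exact Finset.sum_eq_zero fun i _ => by rw [h2 i]; simp
    have haR : ∀ s ∈ R, ∑ i, (a i : ℝ) * (M s i : ℝ) = 0 := fun s hs => by exact_mod_cast haP s hs
    have hsa : ∑ i, a i = 0 := by
      have h1 : (∑ i, (a i : ℝ)) * h = 0 := by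
        calc (∑ i, (a i : ℝ)) * h = ∑ i, a i * ∑ s ∈ R, x s * (f s * M s i : ℕ) := by
              rw [Finset.sum_mul]
              exact Finset.sum_congr rfl fun i _ => by rw [hsum i]
          _ = ∑ s ∈ R, x s * f s * ∑ i, (a i : ℝ) * (M s i : ℝ) := by
              simp_rw [Finset.mul_sum]
              rw [Finset.sum_comm]
              refine Finset.sum_congr rfl fun s _ => Finset.sum_congr rfl fun i _ => ?_
              push_cast
              ring
          _ = 0 := Finset.sum_eq_zero fun s hs => by rw [haR s hs, mul_zero]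
      have h2 := (mul_eq_zero.1 h1).resolve_right hD.h0.ne'
      exact_mod_cast h2
    refine ⟨hsa, alg_of_val hC hD L hL hL0 I2 ?_ a hsa fun α => ?_⟩
    · by_contra hnt
      push Not at hnt
      have h1 := heq i1
      rw [Finset.sum_eq_zero fun α _ => hnt α _ (hx0 i1)] at h1
      exact hD.h0.ne h1
    · rw [rv_prod (hD.rv α) L hL0 a]
      by_cases hα : Triv (ω α)
      · exact Finset.sum_eq_zero fun i _ => by rw [hα _ (hL0 i), mul_zero]
      · have h1 : ∀ i, ω α (L i) = ω α l0 + t α * γ (ρ α) * M (ρ α) i := by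
          intro i
          have h2 := hM (ρ α) i (hρ α hα).1
          have h3 := (hρ α hα).2.2 _ (hx0 i)
          rw [rv_div (hD.rv α) (hL0 i) hl00, h2] at h3
          linarith
        have h2 : ∑ i, (a i : ℝ) * ω α (L i) = ω α l0 * ∑ i, (a i : ℝ) + t α * γ (ρ α) * ∑ i, (a i : ℝ) * (M (ρ α) i : ℝ) := by
          rw [Finset.mul_sum, Finset.mul_sum, ← Finset.sum_add_distrib]
          exact Finset.sum_congr rfl fun i _ => by rw [h1 i]; ring
        have h3 : ∑ i, (a i : ℝ) = 0 := by exact_mod_cast hsa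
        rw [h2, h3, haR _ (hρ α hα).1, mul_zero, mul_zero, add_zero]

end

end Pool.Agent.TRI
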