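import Pool.Agent.Helper42.TRI.Bound
import Pool.Agent.Helper77.TRI.LinePhi
import Pool.Agent.Helper71.TRI.LineNodes
import Pool.Agent.Helper20.TRI.Nodes

/-!
# TRI, G11: the geometric theorem

Two independent relations bound the degree (G7), so the multiplicities are bounded and the relations can be taken from a finite set;
the curve is a line (G8), on which there are two nodes (G9, G10).
-/

set_option autoImplicit false

namespace Pool.Agent.TRI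

open Module MvPolynomial

universe u

section

private theorem two_rel {p q : ℕ} (M : Fin p → Fin q → ℕ) (h : p + 2 ≤ q) :
    ∃ a b : Fin q → ℤ, LinearIndependent ℤ ![a, b] ∧ (∀ s, ∑ i, a i * M s i = 0) ∧ ∀ s, ∑ i, b i * M s i = 0 := by
  obtain ⟨f, hf⟩ : ∃ f : (Fin q → ℤ) →ₗ[ℤ] (Fin p → ℤ), ∀ a s, f a s = ∑ i, a i * M s i :=
    ⟨{ toFun := fun a s => ∑ i, a i * M s i
       map_add' := fun a b => by
        ext s
        simp only [Pi.add_apply, add_mul, Finset.sum_add_distrib]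
       map_smul' := fun c a => by
        ext s
        simp only [Pi.smul_apply, smul_eq_mul, RingHom.id_apply, Finset.mul_sum, mul_assoc] }, fun a s => rfl⟩
  have h1 : finrank ℤ (LinearMap.range f) + finrank ℤ (LinearMap.ker f) = q := by
    rw [← f.quotKerEquivRange.finrank_eq, Submodule.finrank_quotient_add_finrank, Module.finrank_fin_fun]
  have h2 : finrank ℤ (LinearMap.range f) ≤ p := by
    have := Submodule.finrank_le (LinearMap.range f)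
    rwa [Module.finrank_fin_fun] at this
  have h3 : 2 ≤ finrank ℤ (LinearMap.ker f) := by omega
  obtain ⟨B⟩ : Nonempty (Basis (Fin (finrank ℤ (LinearMap.ker f))) ℤ (LinearMap.ker f)) := ⟨Module.finBasis ℤ _⟩
  have h4 : LinearIndependent ℤ fun i => ((B i : LinearMap.ker f) : Fin q → ℤ) :=
    B.linearIndependent.map' (LinearMap.ker f).subtype (Submodule.ker_subtype _)
  have h5 := h4.comp ![⟨0, by omega⟩, ⟨1, by omega⟩] (by
    intro i j hij
    fin_cases i <;> fin_cases j <;> simp at hij ⊢)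
  refine ⟨(B ⟨0, by omega⟩ : LinearMap.ker f), (B ⟨1, by omega⟩ : LinearMap.ker f), ?_, fun s => ?_, fun s => ?_⟩
  · convert h5 using 1
    ext i : 1
    fin_cases i <;> rfl
  · rw [← hf]
    have h6 : f (B ⟨0, by omega⟩ : LinearMap.ker f) = 0 := (B ⟨0, by omega⟩ : LinearMap.ker f).2
    rw [h6]; rfl
  · rw [← hf]
    have h6 : f (B ⟨1, by omega⟩ : LinearMap.ker f) = 0 := (B ⟨1, by omega⟩ : LinearMap.ker f).2
    rw [h6]; rfl

private theorem li_ext {κ E : Type*} [Field κ] [Field E] (φ : κ →+* E) {N : ℕ} (z₁ z₂ : Fin N → κ) (h : LinearIndependent κ ![z₁, z₂]) :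
    LinearIndependent E ![fun j => φ (z₁ j), fun j => φ (z₂ j)] := by
  rw [LinearIndependent.pair_iff] at h ⊢
  obtain ⟨i, j, hij⟩ : ∃ i j, z₁ i * z₂ j - z₁ j * z₂ i ≠ 0 := by
    by_contra hne
    push Not at hne
    by_cases h1 : z₁ = 0
    · exact one_ne_zero (h 1 0 (by rw [h1]; simp)).1
    · obtain ⟨i, hi⟩ := Function.ne_iff.1 h1
      have h2 := (h (z₂ i) (- z₁ i) (by
        ext j
        simp only [Pi.add_apply, Pi.smul_apply, smul_eq_mul, Pi.zero_apply]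
        have := hne i j
        linear_combination - this)).2
      exact hi (by simpa using h2)
  intro s t hst
  have h1 := congrFun hst i
  have h2 := congrFun hst j
  simp only [Pi.add_apply, Pi.smul_apply, smul_eq_mul, Pi.zero_apply] at h1 h2
  have h3 : φ (z₁ i * z₂ j - z₁ j * z₂ i) ≠ 0 := (map_ne_zero φ).2 hij
  rw [map_sub, map_mul, map_mul] at h3
  constructor
  · have h4 : s * (φ (z₁ i) * φ (z₂ j) - φ (z₁ j) * φ (z₂ i)) = 0 := by linear_combination φ (z₂ j) * h1 - φ (z₂ i) * h2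
    exact (mul_eq_zero.1 h4).resolve_right h3
  · have h4 : t * (φ (z₁ i) * φ (z₂ j) - φ (z₁ j) * φ (z₂ i)) = 0 := by linear_combination φ (z₁ i) * h2 - φ (z₁ j) * h1
    exact (mul_eq_zero.1 h4).resolve_right h3

variable {k₀ : Type u} [Field k₀] [CharZero k₀] {N : ℕ} {I : Ideal (MvPolynomial (Fin (N + 1)) k₀)}

theorem geo (hX : Surf I) {q r : ℕ} (hq : 2 * r + 2 ≤ q) : ∃ Φ : MvPolynomial (Fin q × Fin (N + 1)) k₀, Φ ≠ 0 ∧
    ∀ (k : Type u) [Field k] [Algebra k₀ k] (l : Fin q → Fin (N + 1) → k),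
    aeval (fun p : Fin q × Fin (N + 1) => l p.1 p.2) Φ ≠ 0 → ∀ (E : Type u) [Field E] [Algebra k E] [Algebra k₀ E]
      [IsScalarTower k₀ k E] (ξ : Fin (N + 1) → E), (∃ j, ξ j = 1) → (∃ j, Transcendental k (ξ j)) → OnX I ξ →
      (∀ i, lv (l i) ξ ≠ 0) → ∀ (p : ℕ) (M : Fin p → Fin q → ℕ), p ≤ 2 * r →
      (∀ d : ℕ, (∃ C : ℕ, ∀ m, finrank k ↥((Submodule.span k (Set.range ξ)) ^ m) ≤ d * m + C) → ∀ s i, M s i ≤ d) →
      (∀ a : Fin q → ℤ, (∀ s, ∑ i, a i * M s i = 0) → ∑ i, a i = 0 ∧ IsAlgebraic k (wv l ξ a)) →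
      q = 2 * r + 2 ∧ Plane I ∧ ∃ (g : Fin 4 → Fin q) (z₁ z₂ : Fin (N + 1) → E), Function.Injective g ∧ LinearIndependent E ![z₁, z₂] ∧
        lv (l (g 0)) z₁ = 0 ∧ lv (l (g 1)) z₁ = 0 ∧ lv (l (g 2)) z₂ = 0 ∧ lv (l (g 3)) z₂ = 0 ∧
        ∃ s t : E, ∀ j, ξ j = s * z₁ j + t * z₂ j := by
  classical
  obtain ⟨Φ1, d, h10, h1⟩ := bound hX q
  obtain ⟨Φ2, h20, h2⟩ := nodes hX q
  have key : ∀ x : (Σ p : Fin (2 * r + 1), Fin p.1 → Fin q → Fin (d + 1)), ∃ Φ : MvPolynomial (Fin q × Fin (N + 1)) k₀, Φ ≠ 0 ∧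
      ((∃ a b : Fin q → ℤ, LinearIndependent ℤ ![a, b] ∧ (∀ s, ∑ i, a i * ((x.2 s i : ℕ) : ℤ) = 0) ∧
        (∀ s, ∑ i, b i * ((x.2 s i : ℕ) : ℤ) = 0) ∧ ∑ i, a i = 0 ∧ ∑ i, b i = 0) →
      ∃ a b : Fin q → ℤ, LinearIndependent ℤ ![a, b] ∧ (∀ s, ∑ i, a i * ((x.2 s i : ℕ) : ℤ) = 0) ∧
        (∀ s, ∑ i, b i * ((x.2 s i : ℕ) : ℤ) = 0) ∧ ∀ (E : Type u) [Field E] [Algebra k₀ E] (κ : IntermediateField k₀ E), AC κ →
        ∀ l : Fin q → Fin (N + 1) → κ, aeval (fun p : Fin q × Fin (N + 1) => l p.1 p.2) Φ ≠ 0 → ∀ ξ : Fin (N + 1) → E,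
        (∃ j, ξ j = 1) → (∃ j, ξ j ∉ κ) → OnX I ξ → (∀ i, lv (l i) ξ ≠ 0) → wv l ξ a ∈ κ → wv l ξ b ∈ κ →
        finrank κ (Submodule.span κ (Set.range ξ)) ≤ 2) := by
    intro x
    by_cases hx : ∃ a b : Fin q → ℤ, LinearIndependent ℤ ![a, b] ∧ (∀ s, ∑ i, a i * ((x.2 s i : ℕ) : ℤ) = 0) ∧
        (∀ s, ∑ i, b i * ((x.2 s i : ℕ) : ℤ) = 0) ∧ ∑ i, a i = 0 ∧ ∑ i, b i = 0
    · obtain ⟨a, b, hab, ha, hb, ha0, hb0⟩ := hx
      obtain ⟨Φ, hΦ0, hΦ⟩ := line_phi hX a b hab ha0 hb0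
      exact ⟨Φ, hΦ0, fun _ => ⟨a, b, hab, ha, hb, hΦ⟩⟩
    · exact ⟨1, one_ne_zero, fun h => absurd h hx⟩
  choose Φ3 h30 h3 using key
  refine ⟨Φ1 * Φ2 * ∏ x, Φ3 x, mul_ne_zero (mul_ne_zero h10 h20) (Finset.prod_ne_zero_iff.2 fun x _ => h30 x), ?_⟩
  intro k _ _ l hl E _ _ _ _ ξ hξ1 ht hξ hlξ p M hp hMd hM
  rw [map_mul, map_mul, map_prod] at hl
  have hl1 := left_ne_zero_of_mul (left_ne_zero_of_mul hl)
  have hl2 := right_ne_zero_of_mul (left_ne_zero_of_mul hl)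
  have hl3 := Finset.prod_ne_zero_iff.1 (right_ne_zero_of_mul hl)
  -- two relations and the bound of the degrees
  obtain ⟨a, b, hab, ha, hb⟩ := two_rel M (by omega)
  obtain ⟨ha0, hwa⟩ := hM a ha
  obtain ⟨hb0, hwb⟩ := hM b hb
  have hd := hMd d (h1 k l hl1 E ξ hξ1 ht hξ hlξ a b hab ha0 hb0 hwa hwb)
  obtain ⟨x, hx⟩ : ∃ x : (Σ p : Fin (2 * r + 1), Fin p.1 → Fin q → Fin (d + 1)),
      x = ⟨⟨p, by omega⟩, fun s i => ⟨M s i, Nat.lt_succ_of_le (hd s i)⟩⟩ := ⟨_, rfl⟩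
  have hx3 := h3 x
  have hlx := hl3 x (Finset.mem_univ _)
  subst hx
  obtain ⟨a', b', -, ha', hb', hΦ⟩ := hx3 ⟨a, b, hab, ha, hb, ha0, hb0⟩
  -- the field of constants
  obtain ⟨κ, hκ⟩ : ∃ κ : IntermediateField k E, ∀ y, y ∈ κ ↔ IsAlgebraic k y :=
    ⟨algebraicClosure k E, fun y => mem_algebraicClosure_iff⟩
  have hκalg : Algebra.IsAlgebraic k κ := ⟨fun y => by
    have h4 := (hκ y).1 y.2
    rwa [← isAlgebraic_algebraMap_iff (algebraMap κ E).injective]⟩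
  have hAC : AC κ := by
    intro y hy
    rw [hκ]
    exact IsAlgebraic.restrictScalars k hy
  have hlv : ∀ i, lv (fun c => algebraMap k κ (l i c)) ξ = lv (l i) ξ := fun i => by
    unfold lv
    exact Finset.sum_congr rfl fun j _ => by rw [← IsScalarTower.algebraMap_apply]
  have hwv : ∀ a, wv (fun i c => algebraMap k κ (l i c)) ξ a = wv l ξ a := fun a => by
    unfold wv
    exact Finset.prod_congr rfl fun i _ => by rw [hlv]
  have hmap : ∀ Φ : MvPolynomial (Fin q × Fin (N + 1)) k₀, aeval (fun p : Fin q × Fin (N + 1) => l p.1 p.2) Φ ≠ 0 →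
      aeval (fun p : Fin q × Fin (N + 1) => algebraMap k κ (l p.1 p.2)) Φ ≠ 0 := by
    intro Φ h4
    have h5 : aeval (fun p : Fin q × Fin (N + 1) => algebraMap k κ (l p.1 p.2)) Φ =
        algebraMap k κ (aeval (fun p : Fin q × Fin (N + 1) => l p.1 p.2) Φ) := by
      have h6 := MvPolynomial.aeval_algebraMap_apply κ (fun p : Fin q × Fin (N + 1) => l p.1 p.2) Φ
      exact h6
    rw [h5]
    exact (map_ne_zero (algebraMap k κ)).2 h4
  have hrk : finrank κ (Submodule.span κ (Set.range ξ)) ≤ 2 := by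
    refine hΦ E (κ.restrictScalars k₀) hAC (fun i c => algebraMap k κ (l i c)) (hmap _ hlx) ξ hξ1 ?_ hξ ?_ ?_ ?_
    · obtain ⟨j, hj⟩ := ht
      exact ⟨j, fun h4 => hj ((hκ _).1 h4)⟩
    · intro i
      have := hlξ i
      rwa [← hlv i] at this
    · have := (hκ _).2 (hM a' ha').2
      rw [← hwv a'] at this
      exact this
    · have := (hκ _).2 (hM b' hb').2
      rw [← hwv b'] at this
      exact this
  obtain ⟨hq2, hpl, g, z₁, z₂, hg, hz, e0, e1, e2, e3, s, t, hst⟩ := line_nodes hX κ hAC hq l (h2 κ _ (hmap _ hl2)) ξ hξ1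
    (by obtain ⟨j, hj⟩ := ht; exact ⟨j, fun h4 => hj ((hκ _).1 h4)⟩) hξ hlξ hrk M hp
    (fun a ha => ⟨(hM a ha).1, (hκ _).2 (hM a ha).2⟩)
  have hlz : ∀ (i : Fin q) (z : Fin (N + 1) → κ), lv (l i) z = 0 → lv (l i) (fun j => (z j : E)) = 0 := by
    intro i z hz0
    have h4 := congrArg (algebraMap κ E) hz0
    unfold lv at h4 ⊢
    rw [map_sum, map_zero] at h4
    rw [← h4]
    refine Finset.sum_congr rfl fun j _ => ?_
    rw [map_mul, ← IsScalarTower.algebraMap_apply]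
    rfl
  exact ⟨hq2, hpl, g, fun j => z₁ j, fun j => z₂ j, hg, li_ext (algebraMap κ E) z₁ z₂ hz, hlz _ _ e0, hlz _ _ e1, hlz _ _ e2, hlz _ _ e3,
    s, t, hst⟩

end

end Pool.Agent.TRI
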