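import Pool.Agent.Helper24.TRI.Conormal
import Pool.Agent.Helper41.TRI.Jac
import Pool.Agent.Helper21.TRI.JacPhi
import Pool.Agent.Helper4.TRI.GrowJ

/-!
# TRI, G7: two independent relations bound the growth

The Jacobian form `∑ a i * b j * jac i j` is homogeneous, vanishes at the point (G3) and is not in the ideal (G5); `grow_J` (G6) gives the bound.
-/

set_option autoImplicit false

namespace Pool.Agent.TRI

open Module MvPolynomial

universe u

section

variable {k₀ : Type u} [Field k₀] [CharZero k₀] {N : ℕ} {I : Ideal (MvPolynomial (Fin (N + 1)) k₀)}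

omit [CharZero k₀] in
private theorem exists_X_notMem (hX : Surf I) : ∃ c, (X c : MvPolynomial (Fin (N + 1)) k₀) ∉ I := by
  by_contra hne
  push Not at hne
  have hmk : ∀ p : MvPolynomial (Fin (N + 1)) k₀, p - C (constantCoeff p) ∈ I := by
    intro p
    induction p using MvPolynomial.induction_on with
    | C a => simp
    | add p q hp hq =>
      have h1 : p + q - C (constantCoeff (p + q)) = (p - C (constantCoeff p)) + (q - C (constantCoeff q)) := by
        rw [map_add, C_add]; ring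
      rw [h1]
      exact I.add_mem hp hq
    | mul_X p i hp =>
      rw [map_mul, constantCoeff_X, mul_zero, C_0, sub_zero]
      exact I.mul_mem_left _ (hne i)
  have halg : Algebra.IsAlgebraic k₀ (MvPolynomial (Fin (N + 1)) k₀ ⧸ I) := by
    refine ⟨fun x => ?_⟩
    obtain ⟨p, rfl⟩ := Ideal.Quotient.mk_surjective x
    have h1 : Ideal.Quotient.mk I p = algebraMap k₀ _ (constantCoeff p) := by
      rw [← sub_eq_zero]
      have h2 : algebraMap k₀ (MvPolynomial (Fin (N + 1)) k₀ ⧸ I) (constantCoeff p) = Ideal.Quotient.mk I (C (constantCoeff p)) := rfl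
      rw [h2, ← map_sub]
      exact Ideal.Quotient.eq_zero_iff_mem.2 (hmk p)
    rw [h1]
    exact isAlgebraic_algebraMap _
  have h0 : Algebra.trdeg k₀ (MvPolynomial (Fin (N + 1)) k₀ ⧸ I) = 0 := by
    have := hX.prime
    exact trdeg_eq_zero
  rw [hX.tr] at h0
  exact absurd h0 (by norm_num)

/-- the rows -/
private noncomputable def rw' {K : Type*} [Field K] [Algebra k₀ K] {n q : ℕ} (f : Fin n → MvPolynomial (Fin (n + 2 + 1)) k₀)
    (l : Fin q → Fin (n + 2 + 1) → K) (c : Fin (n + 2 + 1)) (i j : Fin q) : Fin (n + 3) → Fin (n + 2 + 1) → MvPolynomial (Fin (n + 2 + 1)) K :=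
  Fin.append (fun t => fun b => MvPolynomial.map (algebraMap k₀ K) (pderiv b (f t)))
      ![fun b => C (l i b), fun b => C (l j b), Pi.single c 1]

omit [CharZero k₀] in
private theorem jac_eq {K : Type*} [Field K] [Algebra k₀ K] {n q : ℕ} (f : Fin n → MvPolynomial (Fin (n + 2 + 1)) k₀)
    (l : Fin q → Fin (n + 2 + 1) → K) (c : Fin (n + 2 + 1)) (i j : Fin q) :
    jac f l c i j = Matrix.det (Matrix.of (rw' f l c i j) : Matrix (Fin (n + 3)) (Fin (n + 3)) (MvPolynomial (Fin (n + 2 + 1)) K)) *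
      ∏ m ∈ Finset.univ.filter (fun m => m ≠ i ∧ m ≠ j), ∑ b, C (l m b) * X b := by
  unfold jac
  rw [dif_pos rfl]
  rfl

omit [CharZero k₀] in
private theorem jac_self {K : Type*} [Field K] [Algebra k₀ K] {n q : ℕ} (f : Fin n → MvPolynomial (Fin (n + 2 + 1)) k₀)
    (l : Fin q → Fin (n + 2 + 1) → K) (c : Fin (n + 2 + 1)) (i : Fin q) : jac f l c i i = 0 := by
  rw [jac_eq]
  have h2 : (Fin.natAdd n (0 : Fin 3)) ≠ Fin.natAdd n 1 := by
    intro h
    have := congrArg Fin.val h
    simp at this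
  rw [Matrix.det_zero_of_row_eq h2, zero_mul]
  show rw' f l c i i (Fin.natAdd n 0) = rw' f l c i i (Fin.natAdd n 1)
  simp [rw', Fin.append_right]

omit [CharZero k₀] in
private theorem jac_hom {K : Type*} [Field K] [Algebra k₀ K] {n q : ℕ} (f : Fin n → MvPolynomial (Fin (n + 2 + 1)) k₀) (e : Fin n → ℕ)
    (hfe : ∀ t, (f t).IsHomogeneous (e t)) (l : Fin q → Fin (n + 2 + 1) → K) (c : Fin (n + 2 + 1)) (i j : Fin q) :
    (jac f l c i j).IsHomogeneous (∑ t, (e t - 1) + (q - 2)) := by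
  classical
  by_cases hij : i = j
  · subst hij
    rw [jac_self]
    exact isHomogeneous_zero _ _ _
  rw [jac_eq]
  refine IsHomogeneous.mul ?_ ?_
  · obtain ⟨g, hg⟩ : ∃ g : Fin (n + 3) → ℕ, g = Fin.append (fun t => e t - 1) (fun _ : Fin 3 => 0) := ⟨_, rfl⟩
    have hgs : ∑ a, g a = ∑ t, (e t - 1) := by
      rw [hg, Fin.sum_univ_add]
      simp [Fin.append_left, Fin.append_right]
    have hrow : ∀ a b, (rw' f l c i j a b).IsHomogeneous (g a) := by
      intro a b
      induction a using Fin.addCases with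
      | left t =>
        rw [hg, Fin.append_left, rw', Fin.append_left]
        exact ((hfe t).pderiv).map _
      | right t =>
        rw [hg, Fin.append_right, rw', Fin.append_right]
        fin_cases t
        · exact isHomogeneous_C _ _
        · exact isHomogeneous_C _ _
        · show (Pi.single c 1 : Fin (n + 2 + 1) → MvPolynomial (Fin (n + 2 + 1)) K) b |>.IsHomogeneous 0
          by_cases hb : b = c
          · subst hb; rw [Pi.single_eq_same]; exact isHomogeneous_one _ _
          · rw [Pi.single_eq_of_ne hb]; exact isHomogeneous_zero _ _ _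
    rw [Matrix.det_apply]
    refine IsHomogeneous.sum _ _ _ fun σ _ => ?_
    have h1 : (∏ a, (Matrix.of (rw' f l c i j) : Matrix (Fin (n + 3)) (Fin (n + 3)) (MvPolynomial (Fin (n + 2 + 1)) K)) (σ a) a).IsHomogeneous
        (∑ t, (e t - 1)) := by
      rw [← hgs, ← Equiv.sum_comp σ g]
      exact IsHomogeneous.prod _ _ _ fun a _ => hrow (σ a) a
    rcases Int.units_eq_one_or (Equiv.Perm.sign σ) with h2 | h2
    · rw [h2, one_smul]; exact h1
    · rw [h2]
      simpa using h1.neg
  · have hcard : (Finset.univ.filter fun m : Fin q => m ≠ i ∧ m ≠ j).card = q - 2 := by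
      have h1 : (Finset.univ.filter fun m : Fin q => m ≠ i ∧ m ≠ j) = Finset.univ \ {i, j} := by
        ext m
        simp
      rw [h1, Finset.card_sdiff_of_subset (Finset.subset_univ _), Finset.card_pair hij, Finset.card_univ, Fintype.card_fin]
    rw [← hcard, Finset.card_eq_sum_ones]
    refine IsHomogeneous.prod _ _ _ fun m _ => IsHomogeneous.sum _ _ _ fun b _ => ?_
    have h1 := (isHomogeneous_C (Fin (n + 2 + 1)) (l m b)).mul (isHomogeneous_X K b)
    simpa using h1

theorem bound (hX : Surf I) (q : ℕ) : ∃ (Φ : MvPolynomial (Fin q × Fin (N + 1)) k₀) (d : ℕ), Φ ≠ 0 ∧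
    ∀ (k : Type u) [Field k] [Algebra k₀ k] (l : Fin q → Fin (N + 1) → k),
    aeval (fun p : Fin q × Fin (N + 1) => l p.1 p.2) Φ ≠ 0 → ∀ (E : Type u) [Field E] [Algebra k E] [Algebra k₀ E]
      [IsScalarTower k₀ k E] (ξ : Fin (N + 1) → E), (∃ j, ξ j = 1) → (∃ j, Transcendental k (ξ j)) → OnX I ξ →
      (∀ i, lv (l i) ξ ≠ 0) → ∀ a b : Fin q → ℤ, LinearIndependent ℤ ![a, b] → ∑ i, a i = 0 → ∑ i, b i = 0 →
      IsAlgebraic k (wv l ξ a) → IsAlgebraic k (wv l ξ b) →
      ∃ C : ℕ, ∀ m, finrank k ↥((Submodule.span k (Set.range ξ)) ^ m) ≤ d * m + C := by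
  classical
  obtain ⟨n, hn, f, e, hf, hfe, hg⟩ := conormal hX
  obtain ⟨c, hc⟩ := exists_X_notMem hX
  obtain ⟨Φ, hΦ0, hΦ⟩ := jac_phi2 hX hn f e hf hfe hg c hc q
  obtain ⟨d, hd⟩ := grow_J hX (∑ t, (e t - 1) + (q - 2))
  refine ⟨Φ, d, hΦ0, ?_⟩
  intro k _ _ l hl E _ _ _ _ ξ h1 ht hξ hlξ a b hab ha hb hwa hwb
  have hJ0 := jac_zero hn f e hf hfe l ξ h1 ht hξ hlξ a b ha hb hwa hwb c
  refine hd k E ξ hξ _ ?_ ?_ hJ0
  · subst hn
    refine IsHomogeneous.sum _ _ _ fun p _ => ?_
    have h2 := (isHomogeneous_C (Fin (n + 2 + 1)) ((a p.1 * b p.2 : ℤ) : k)).mul (jac_hom f e hfe l c p.1 p.2)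
    rwa [zero_add] at h2
  · exact hΦ k l hl a b hab

end

end Pool.Agent.TRI
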